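import Pool.Agent.H77.RZ.Stmts
import Pool.Agent.H33.AVS.NGH

/-!
# RZ, module QF: the binary form of an element modulo a quadratic polynomial
-/

set_option autoImplicit false

namespace Pool.RZ

open Polynomial Matrix Pool.AVR Pool.AVS

namespace QF

variable {K : Type} [Field K]

section Cubic

variable (a b c : K)

theorem tau_congr (p q : K[X]) (h : cub a b c ∣ p - q) : tau a b c p = tau a b c q := by
  rw [← COR.T_mk, ← COR.T_mk, AdjoinRoot.mk_eq_mk.2 h]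

theorem tau_add (p q : K[X]) : tau a b c (p + q) = tau a b c p + tau a b c q := by
  rw [← COR.T_mk, ← COR.T_mk, ← COR.T_mk, map_add (AdjoinRoot.mk (cub a b c)), map_add]

theorem tau_C_mul (x : K) (p : K[X]) : tau a b c (C x * p) = x * tau a b c p := by
  have h : AdjoinRoot.mk (cub a b c) (C x * p) = x • AdjoinRoot.mk (cub a b c) p := by
    rw [map_mul, AdjoinRoot.mk_C, Algebra.smul_def]
    rfl
  rw [← COR.T_mk, ← COR.T_mk, h, map_smul, smul_eq_mul]

theorem tau_rec (m : ℕ) : tau a b c (X ^ (m + 3)) =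
    -a * tau a b c (X ^ (m + 2)) - b * tau a b c (X ^ (m + 1)) - c * tau a b c (X ^ m) := by
  have h := tau_congr a b c (X ^ (m + 3))
    (C (-a) * X ^ (m + 2) + (C (-b) * X ^ (m + 1) + C (-c) * X ^ m)) ⟨X ^ m, by
      simp only [cub, C_neg]
      ring⟩
  rw [h, tau_add, tau_add, tau_C_mul, tau_C_mul, tau_C_mul]
  ring

theorem t0 : tau a b c (X ^ 0) = 0 := by
  rw [COR.tau_of_lt _ _ _ _ (lt_of_le_of_lt (degree_X_pow_le _) (by decide)), coeff_X_pow]
  rfl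

theorem t1 : tau a b c (X ^ 1) = 0 := by
  rw [COR.tau_of_lt _ _ _ _ (lt_of_le_of_lt (degree_X_pow_le _) (by decide)), coeff_X_pow]
  rfl

theorem t2 : tau a b c (X ^ 2) = 1 := by
  rw [COR.tau_of_lt _ _ _ _ (lt_of_le_of_lt (degree_X_pow_le _) (by decide)), coeff_X_pow]
  rfl

theorem t3 : tau a b c (X ^ 3) = -a := by
  rw [tau_rec a b c 0, t2, t1, t0]
  ring

theorem t4 : tau a b c (X ^ 4) = a ^ 2 - b := by
  rw [tau_rec a b c 1, t3, t2, t1]
  ring

theorem t5 : tau a b c (X ^ 5) = -a ^ 3 + 2 * a * b - c := by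
  rw [tau_rec a b c 2, t4, t3, t2]
  ring

theorem t6 : tau a b c (X ^ 6) = a ^ 4 - 3 * a ^ 2 * b + b ^ 2 + 2 * a * c := by
  rw [tau_rec a b c 3, t5, t4, t3]
  ring

/-- The remainder. -/
theorem rem_exists (p : K[X]) : ∃ r0 r1 r2 : K,
    cub a b c ∣ p - (C r0 + C r1 * X + C r2 * X ^ 2) := by
  refine ⟨(p %ₘ cub a b c).coeff 0, (p %ₘ cub a b c).coeff 1, (p %ₘ cub a b c).coeff 2, ?_⟩
  have h1 : p %ₘ cub a b c = C ((p %ₘ cub a b c).coeff 0) + C ((p %ₘ cub a b c).coeff 1) * X +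
      C ((p %ₘ cub a b c).coeff 2) * X ^ 2 := by
    have hd : (p %ₘ cub a b c).degree < 3 := by
      rw [← COR.cub_degree a b c]
      exact degree_modByMonic_lt _ (COR.cub_monic a b c)
    ext n
    rcases Nat.lt_or_ge n 3 with hn | hn
    · interval_cases n <;> simp [coeff_X, coeff_X_pow, coeff_C]
    · rw [coeff_eq_zero_of_degree_lt (hd.trans_le (by exact_mod_cast hn))]
      have h2 : n ≠ 0 := by omega
      have h3 : 1 ≠ n := by omega
      have h4 : n ≠ 2 := by omega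
      simp [coeff_X, coeff_X_pow, coeff_C, h2, h3, h4]
  rw [← h1]
  have h2 := modByMonic_add_div p (cub a b c)
  exact ⟨p /ₘ cub a b c, by linear_combination -h2⟩

theorem tau_X_mul (p : K[X]) (r0 r1 r2 : K)
    (h : cub a b c ∣ p - (C r0 + C r1 * X + C r2 * X ^ 2)) (m : ℕ) :
    tau a b c (X ^ m * p) = r0 * tau a b c (X ^ m) + r1 * tau a b c (X ^ (m + 1)) +
      r2 * tau a b c (X ^ (m + 2)) := by
  rw [tau_congr a b c (X ^ m * p)
    (C r0 * X ^ m + (C r1 * X ^ (m + 1) + C r2 * X ^ (m + 2))), tau_add, tau_add, tau_C_mul,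
    tau_C_mul, tau_C_mul]
  · ring
  · obtain ⟨w, hw⟩ := h
    exact ⟨X ^ m * w, by linear_combination X ^ m * hw⟩

/-- The norm in the cubic algebra. -/
theorem norm_cub (p : K[X]) (r0 r1 r2 : K)
    (h : cub a b c ∣ p - (C r0 + C r1 * X + C r2 * X ^ 2)) :
    Algebra.norm K (AdjoinRoot.mk (cub a b c) p) =
      r0 ^ 3 - a * r0 ^ 2 * r1 + (a ^ 2 - 2 * b) * r0 ^ 2 * r2 + b * r0 * r1 ^ 2 +
      (3 * c - a * b) * r0 * r1 * r2 + (b ^ 2 - 2 * a * c) * r0 * r2 ^ 2 - c * r1 ^ 3 +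
      a * c * r1 ^ 2 * r2 - b * c * r1 * r2 ^ 2 + c ^ 2 * r2 ^ 3 := by
  have h1 := NGH.det_gr0 a b c p
  have e : ∀ i j : Fin 3, gr0 a b c p i j = r0 * tau a b c (X ^ ((i : ℕ) + j)) +
      r1 * tau a b c (X ^ ((i : ℕ) + j + 1)) + r2 * tau a b c (X ^ ((i : ℕ) + j + 2)) := by
    intro i j
    rw [← tau_X_mul a b c p r0 r1 r2 h, pow_add]
    rfl
  have e00 : gr0 a b c p 0 0 = r2 := by
    rw [e]
    change r0 * tau a b c (X ^ 0) + r1 * tau a b c (X ^ 1) + r2 * tau a b c (X ^ 2) = _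
    rw [t0, t1, t2]
    ring
  have s1 : r0 * tau a b c (X ^ 1) + r1 * tau a b c (X ^ 2) + r2 * tau a b c (X ^ 3) =
      r1 - a * r2 := by
    rw [t1, t2, t3]
    ring
  have s2 : r0 * tau a b c (X ^ 2) + r1 * tau a b c (X ^ 3) + r2 * tau a b c (X ^ 4) =
      r0 - a * r1 + (a ^ 2 - b) * r2 := by
    rw [t2, t3, t4]
    ring
  have s3 : r0 * tau a b c (X ^ 3) + r1 * tau a b c (X ^ 4) + r2 * tau a b c (X ^ 5) =
      -a * r0 + (a ^ 2 - b) * r1 + (-a ^ 3 + 2 * a * b - c) * r2 := by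
    rw [t3, t4, t5]
    ring
  have s4 : r0 * tau a b c (X ^ 4) + r1 * tau a b c (X ^ 5) + r2 * tau a b c (X ^ 6) =
      (a ^ 2 - b) * r0 + (-a ^ 3 + 2 * a * b - c) * r1 +
        (a ^ 4 - 3 * a ^ 2 * b + b ^ 2 + 2 * a * c) * r2 := by
    rw [t4, t5, t6]
    ring
  have e01 : gr0 a b c p 0 1 = r1 - a * r2 := (e 0 1).trans s1
  have e10 : gr0 a b c p 1 0 = r1 - a * r2 := (e 1 0).trans s1
  have e02 : gr0 a b c p 0 2 = r0 - a * r1 + (a ^ 2 - b) * r2 := (e 0 2).trans s2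
  have e20 : gr0 a b c p 2 0 = r0 - a * r1 + (a ^ 2 - b) * r2 := (e 2 0).trans s2
  have e11 : gr0 a b c p 1 1 = r0 - a * r1 + (a ^ 2 - b) * r2 := (e 1 1).trans s2
  have e12 : gr0 a b c p 1 2 = -a * r0 + (a ^ 2 - b) * r1 + (-a ^ 3 + 2 * a * b - c) * r2 :=
    (e 1 2).trans s3
  have e21 : gr0 a b c p 2 1 = -a * r0 + (a ^ 2 - b) * r1 + (-a ^ 3 + 2 * a * b - c) * r2 :=
    (e 2 1).trans s3
  have e22 : gr0 a b c p 2 2 = (a ^ 2 - b) * r0 + (-a ^ 3 + 2 * a * b - c) * r1 +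
        (a ^ 4 - 3 * a ^ 2 * b + b ^ 2 + 2 * a * c) * r2 := (e 2 2).trans s4
  rw [Matrix.det_fin_three, e00, e01, e10, e02, e20, e11, e12, e21, e22] at h1
  linear_combination h1

end Cubic

section Quadratic

variable (β γ : K)

theorem q_monic : (X ^ 2 + C β * X + C γ : K[X]).Monic := by
  monicity!

theorem q_natDegree : (X ^ 2 + C β * X + C γ : K[X]).natDegree = 2 := by
  compute_degree!

/-- The power basis. -/
noncomputable def pb2 : Module.Basis (Fin 2) K (AdjoinRoot (X ^ 2 + C β * X + C γ : K[X])) :=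
  (AdjoinRoot.powerBasis' (q_monic β γ)).basis.reindex
    (finCongr (by rw [AdjoinRoot.powerBasis'_dim, q_natDegree]))

theorem pb2_apply (i : Fin 2) :
    pb2 β γ i = AdjoinRoot.mk (X ^ 2 + C β * X + C γ : K[X]) (X ^ (i : ℕ)) := by
  rw [pb2, Module.Basis.reindex_apply, PowerBasis.basis_eq_pow, AdjoinRoot.powerBasis'_gen,
    map_pow, AdjoinRoot.mk_X]
  rfl

theorem smul_mk (q : K[X]) (x : K) (p : K[X]) :
    x • AdjoinRoot.mk q p = AdjoinRoot.mk q (C x * p) := by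
  rw [map_mul, AdjoinRoot.mk_C, Algebra.smul_def]
  rfl

/-- The norm in the quadratic algebra. -/
theorem norm_quad (p : K[X]) (A B : K) (h : (X ^ 2 + C β * X + C γ : K[X]) ∣ p - (C A + C B * X)) :
    Algebra.norm K (AdjoinRoot.mk (X ^ 2 + C β * X + C γ : K[X]) p) =
      A ^ 2 - A * B * β + B ^ 2 * γ := by
  have hp : AdjoinRoot.mk (X ^ 2 + C β * X + C γ : K[X]) p =
      AdjoinRoot.mk (X ^ 2 + C β * X + C γ : K[X]) (C A + C B * X) := AdjoinRoot.mk_eq_mk.2 h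
  rw [hp, Algebra.norm_eq_matrix_det (pb2 β γ), Matrix.det_fin_two]
  have c0 : AdjoinRoot.mk (X ^ 2 + C β * X + C γ : K[X]) (C A + C B * X) * pb2 β γ 0 =
      A • pb2 β γ 0 + B • pb2 β γ 1 := by
    rw [pb2_apply, pb2_apply, ← map_mul, smul_mk, smul_mk, ← map_add]
    refine AdjoinRoot.mk_eq_mk.2 ⟨0, ?_⟩
    simp
  have c1 : AdjoinRoot.mk (X ^ 2 + C β * X + C γ : K[X]) (C A + C B * X) * pb2 β γ 1 =
      (-(B * γ)) • pb2 β γ 0 + (A - B * β) • pb2 β γ 1 := by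
    rw [pb2_apply, pb2_apply, ← map_mul, smul_mk, smul_mk, ← map_add]
    refine AdjoinRoot.mk_eq_mk.2 ⟨C B, ?_⟩
    simp only [Fin.val_zero, Fin.val_one, pow_zero, pow_one, mul_one, C_neg, C_sub, C_mul]
    ring
  have r : ∀ (x y : K) (i : Fin 2), (pb2 β γ).repr (x • pb2 β γ 0 + y • pb2 β γ 1) i =
      ![x, y] i := by
    intro x y i
    rw [map_add, map_smul, map_smul, Module.Basis.repr_self, Module.Basis.repr_self]
    fin_cases i <;> simp
  rw [Algebra.leftMulMatrix_eq_repr_mul, Algebra.leftMulMatrix_eq_repr_mul,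
    Algebra.leftMulMatrix_eq_repr_mul, Algebra.leftMulMatrix_eq_repr_mul, c0, c1, r, r, r, r]
  simp
  ring

end Quadratic

end QF

open QF in
theorem qf_thm : QFStmt := by
  intro k _ e β γ p
  obtain ⟨r0, r1, r2, hr⟩ := rem_exists (β - e) (γ - e * β) (-(e * γ)) p
  have hcub : cub (β - e) (γ - e * β) (-(e * γ)) = (X - C e) * (X ^ 2 + C β * X + C γ) := by
    simp only [cub, C_sub, C_neg, C_mul]
    ring
  have hev : p.eval e = r0 + r1 * e + r2 * e ^ 2 := by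
    obtain ⟨w, hw⟩ := hr
    have := congrArg (eval e) hw
    rw [hcub] at this
    simp only [eval_sub, eval_add, eval_mul, eval_C, eval_X, eval_pow, sub_self, zero_mul] at this
    linear_combination this
  have hq : (X ^ 2 + C β * X + C γ : k[X]) ∣ p - (C (r0 - r2 * γ) + C (r1 - r2 * β) * X) := by
    obtain ⟨w, hw⟩ := hr
    refine ⟨(X - C e) * w + C r2, ?_⟩
    rw [hcub] at hw
    simp only [C_sub, C_mul]
    linear_combination hw
  have hN := norm_quad β γ p _ _ hq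
  have hX := tau_X_mul (β - e) (γ - e * β) (-(e * γ)) p r0 r1 r2 hr
  have hm : ∀ m : ℕ, tau (β - e) (γ - e * β) (-(e * γ)) (p * (X - C e) * X ^ m) =
      tau (β - e) (γ - e * β) (-(e * γ)) (X ^ (m + 1) * p) -
        e * tau (β - e) (γ - e * β) (-(e * γ)) (X ^ m * p) := by
    intro m
    rw [show p * (X - C e) * X ^ m = X ^ (m + 1) * p + C (-e) * (X ^ m * p) by
      simp only [C_neg]
      ring, tau_add, tau_C_mul]
    ring
  refine ⟨?_, ?_, ?_⟩
  · have h0 := hm 0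
    have h1 := hm 1
    have h2 := hm 2
    rw [pow_zero] at h0
    rw [pow_one] at h1
    rw [h0, h1, h2, hN]
    have y0 := hX 0
    have y1 := hX 1
    have y2 := hX 2
    have y3 := hX 3
    rw [t0, t1, t2, pow_zero] at y0
    rw [t1, t2, t3, pow_one] at y1
    rw [t2, t3, t4] at y2
    rw [t3, t4, t5] at y3
    simp only [zero_add, Nat.reduceAdd] at *
    rw [pow_one, y0, y1, y2, y3]
    ring
  · rw [norm_cub _ _ _ p r0 r1 r2 hr, hN, hev]
    ring
  · rw [show p * (X ^ 2 + C β * X + C γ) = X ^ 2 * p + (C β * (X ^ 1 * p) + C γ * (X ^ 0 * p)) by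
      ring, tau_add, tau_add, tau_C_mul, tau_C_mul, hX, hX, hX, hev]
    simp only [zero_add, Nat.reduceAdd]
    rw [t0, t1, t2, t3, t4]
    ring

end Pool.RZ
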