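import Pool.Agent.H77.RZ.Stmts

/-!
# RZ, module SQ: squares modulo a cubic of type `T12` over a finite field
-/

set_option autoImplicit false

namespace Pool.RZ

open Polynomial Matrix Pool.AVR Pool.AVS

namespace SQ

variable {k : Type} [Field k]

theorem q_monic (β γ : k) : (X ^ 2 + C β * X + C γ : k[X]).Monic := by
  monicity!

theorem q_natDegree (β γ : k) : (X ^ 2 + C β * X + C γ : k[X]).natDegree = 2 := by
  compute_degree!

theorem q_irr (β γ : k) (h : ∀ x : k, x ^ 2 + β * x + γ ≠ 0) :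
    Irreducible (X ^ 2 + C β * X + C γ : k[X]) := by
  rw [(q_monic β γ).irreducible_iff_roots_eq_zero_of_degree_le_three
    (by rw [q_natDegree]) (by rw [q_natDegree]; norm_num)]
  refine Multiset.eq_zero_of_forall_notMem fun x hx => h x ?_
  have := (mem_roots (q_monic β γ).ne_zero).1 hx
  rw [IsRoot.def] at this
  simpa using this

/-- In the quadratic extension of a finite field of odd order, an element whose norm is a square is
a square. -/
theorem isSquare_of_norm {K2 : Type} [Field K2] [Algebra k K2] [Finite k] [Finite K2]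
    (h2 : (2 : k) ≠ 0) (hd : Module.finrank k K2 = 2) (x : K2)
    (hx : IsSquare (Algebra.norm k x)) : IsSquare x := by
  classical
  have hf1 := Fintype.ofFinite k
  have hf2 := Fintype.ofFinite K2
  by_cases hx0 : x = 0
  · exact ⟨0, by rw [hx0, mul_zero]⟩
  have h22 : (2 : K2) ≠ 0 := by
    intro h
    apply h2
    apply (algebraMap k K2).injective
    rw [map_ofNat, map_zero, h]
  have hch : ringChar K2 ≠ 2 := by
    intro h
    apply h22
    have := (ringChar.spec K2 2).2 (by rw [h])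
    exact_mod_cast this
  have hchk : ringChar k ≠ 2 := by
    intro h
    apply h2
    have := (ringChar.spec k 2).2 (by rw [h])
    exact_mod_cast this
  have hodd : Fintype.card k % 2 = 1 := FiniteField.odd_card_of_char_ne_two hchk
  have hc1 : 1 < Fintype.card k := Fintype.one_lt_card
  have hcard : Fintype.card K2 = Fintype.card k ^ 2 := by
    rw [Module.card_eq_pow_finrank (K := k) (V := K2), hd]
  rw [FiniteField.isSquare_iff hch hx0]
  have hn : algebraMap k K2 (Algebra.norm k x) = x ^ (Fintype.card k + 1) := by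
    rw [FiniteField.algebraMap_norm_eq_pow, Nat.card_eq_fintype_card, Nat.card_eq_fintype_card,
      hcard]
    congr 1
    obtain ⟨m, hm⟩ : ∃ m, Fintype.card k = m + 1 := ⟨Fintype.card k - 1, by omega⟩
    have hm0 : 0 < m := by omega
    rw [hm]
    have h3 : (m + 1) ^ 2 - 1 = (m + 1 + 1) * m := by
      have : (m + 1) ^ 2 = (m + 1 + 1) * m + 1 := by ring
      omega
    rw [h3, Nat.add_sub_cancel, Nat.mul_div_cancel _ hm0]
  have he : Fintype.card K2 / 2 = (Fintype.card k + 1) * ((Fintype.card k - 1) / 2) := by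
    rw [hcard]
    obtain ⟨m, hm⟩ : ∃ m, Fintype.card k = 2 * m + 1 := ⟨Fintype.card k / 2, by omega⟩
    rw [hm]
    have h3 : (2 * m + 1) ^ 2 = 2 * ((2 * m + 1 + 1) * m) + 1 := by ring
    have h4 : (2 * m + 1 - 1) / 2 = m := by omega
    rw [h3, h4]
    omega
  obtain ⟨t, ht⟩ := hx
  have ht0 : t ≠ 0 := by
    intro h
    rw [ht, h, mul_zero, map_zero] at hn
    exact (pow_ne_zero _ hx0) hn.symm
  rw [he, pow_mul, ← hn, ← map_pow, ht]
  have h5 : (t * t) ^ ((Fintype.card k - 1) / 2) = 1 := by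
    rw [← pow_two, ← pow_mul]
    have h6 : 2 * ((Fintype.card k - 1) / 2) = Fintype.card k - 1 := by omega
    rw [h6]
    exact FiniteField.pow_card_sub_one_eq_one t ht0
  rw [h5, map_one]

end SQ

open SQ in
theorem sq_thm (hQF : QFStmt) : SQStmt := by
  intro k _ _ h2 e β γ hirr p hpe hsq hN
  have hQ := q_irr β γ hirr
  have hfact : Fact (Irreducible (X ^ 2 + C β * X + C γ : k[X])) := ⟨hQ⟩
  have hfin : Module.Finite k (AdjoinRoot (X ^ 2 + C β * X + C γ : k[X])) :=
    (AdjoinRoot.powerBasis' (q_monic β γ)).finite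
  have hfin2 : Finite (AdjoinRoot (X ^ 2 + C β * X + C γ : k[X])) := Module.finite_of_finite k
  have hd : Module.finrank k (AdjoinRoot (X ^ 2 + C β * X + C γ : k[X])) = 2 := by
    rw [(AdjoinRoot.powerBasis' (q_monic β γ)).finrank, AdjoinRoot.powerBasis'_dim, q_natDegree]
  have hNq : IsSquare (Algebra.norm k (AdjoinRoot.mk (X ^ 2 + C β * X + C γ) p)) := by
    have h1 := (hQF k e β γ p).2.1
    have h3 : Algebra.norm k (AdjoinRoot.mk (X ^ 2 + C β * X + C γ) p) =
        Algebra.norm k (AdjoinRoot.mk (cub (β - e) (γ - e * β) (-(e * γ))) p) / p.eval e := by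
      rw [h1, mul_div_cancel_left₀ _ hpe]
    rw [h3]
    exact hN.div hsq
  obtain ⟨y, hy⟩ := isSquare_of_norm h2 hd _ hNq
  obtain ⟨r, rfl⟩ := AdjoinRoot.mk_surjective y
  rw [← map_mul] at hy
  obtain ⟨w1, hw1⟩ := AdjoinRoot.mk_eq_mk.1 hy
  obtain ⟨s, hs⟩ := hsq
  have hQe : e ^ 2 + β * e + γ ≠ 0 := hirr e
  refine ⟨r + (X ^ 2 + C β * X + C γ) * C ((s - r.eval e) / (e ^ 2 + β * e + γ)), ?_⟩
  have hcub : cub (β - e) (γ - e * β) (-(e * γ)) = (X - C e) * (X ^ 2 + C β * X + C γ) := by
    simp only [cub, C_sub, C_neg, C_mul]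
    ring
  rw [hcub]
  refine IsCoprime.mul_dvd ?_ ?_ ?_
  · rw [(irreducible_X_sub_C e).coprime_iff_not_dvd, dvd_iff_isRoot, IsRoot.def]
    simpa using hQe
  · rw [dvd_iff_isRoot, IsRoot.def]
    simp only [eval_sub, eval_add, eval_mul, eval_pow, eval_X, eval_C]
    rw [mul_div_cancel₀ _ hQe, hs]
    ring
  · generalize C ((s - r.eval e) / (e ^ 2 + β * e + γ)) = z
    exact ⟨w1 - 2 * r * z - (X ^ 2 + C β * X + C γ) * z ^ 2, by linear_combination hw1⟩

end Pool.RZ
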